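import Pool.Agent.MVS.Stmts
import Pool.Agent.Helper36_RF.ClMan
import Pool.Agent.Helper36_RF.Chr
import Pool.Agent.Helper5_RF.Slice
import Pool.Agent.Helper5_RF.Nat
import Pool.Agent.Helper5_RF.Cyl
import Pool.Agent.Helper38_RF.Round

noncomputable section

open scoped ContDiff Topology RealInnerProductSpace
set_option maxSynthPendingDepth 3
open Set MeasureTheory

namespace Pool.Agent.MVS.H38

open Pool.Agent.RF Pool.Agent.SecondKind Pool.Agent.MinVolSphere

/-- the round cylinder metric -/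
def rG (ι : Type) [Fintype ι] : E ι → Bil (E ι) := fun x => (‖x‖ ^ 2)⁻¹ • del ι

theorem om_open {ι : Type} [Fintype ι] : IsOpen (Om ι) := isOpen_compl_singleton

theorem rG_cyl {ι : Type} [Fintype ι] [DecidableEq ι] : IsCyl (rG ι) where
  metric := Pool.Agent.RF.H38.round_metric om_open (Subset.refl _) (fun _ _ => rfl)
  homog := by
    intro c hc x hx
    unfold rG
    rw [norm_smul, Real.norm_eq_abs, abs_of_pos hc, mul_pow, mul_inv, smul_smul]
  radial := by
    intro x hx w
    unfold rG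
    simp only [_root_.smul_apply, del_apply, smul_eq_mul]
    rw [div_eq_inv_mul]

/-- the round form -/
def rg : Form 4 := fun _ v w => ∑ i, v i * w i

abbrev sg : Fin 5 ≃ Fin (4 + 1) := Equiv.refl _

theorem comp_rg (ψ : (Fin 4 → ℝ) → Fin 5 → ℝ) :
    comp rg ψ = mat (pullb (fun _ : E (Fin 5) => del (Fin 5)) (psE sg ψ)) := by
  funext y i j
  unfold comp rg mat
  rw [pullb_apply, fderiv_psE, fderiv_psE, del_apply, inner_Lr]
  rfl

theorem chris_congr {ι : Type} [Fintype ι] [DecidableEq ι] {b b' : E ι → Bil (E ι)} {x : E ι}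
    (h : b =ᶠ[𝓝 x] b') (v w : E ι) : chris b x v w = chris b' x v w := by
  unfold chris
  rw [h.fderiv_eq, h.eq_of_nhds]

theorem rmet {U : Set (Fin 4 → ℝ)} {ψ : (Fin 4 → ℝ) → Fin 5 → ℝ} (hψ : IsParam U ψ) :
    IsMetricOn (pullb (fun _ : E (Fin 5) => del (Fin 5)) (psE sg ψ)) (eqE 4 ⁻¹' U) ∧
    StarOn (pullb (fun _ : E (Fin 5) => del (Fin 5)) (psE sg ψ)) (rG (Fin 5)) (psE sg ψ)
      (eqE 4 ⁻¹' U) := by
  have h0 := H5.slice_star chrStatement (ι := Fin 5) (κ := Fin 4) (by simp)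
    (rG_cyl (ι := Fin 5)) (IsParam.open' hψ) (IsParam.smooth' sg hψ) (IsParam.norm' sg hψ)
    (IsParam.inj' sg hψ)
  obtain ⟨hM, hS⟩ := h0
  have heq : ∀ z ∈ eqE 4 ⁻¹' U, pullb (fun _ : E (Fin 5) => del (Fin 5)) (psE sg ψ) z =
      pullb (rG (Fin 5)) (psE sg ψ) z := by
    intro z hz
    ext v w
    rw [pullb_apply, pullb_apply]
    unfold rG
    rw [IsParam.norm' sg hψ z hz]
    simp
  refine ⟨⟨hM.isOpen, hM.smooth.congr heq, ?_, ?_⟩, ?_⟩
  · intro x hx v w
    rw [heq x hx]
    exact hM.symm x hx v w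
  · intro x hx v hv
    rw [heq x hx]
    exact hM.pos x hx v hv
  · intro y hy v w
    rw [hS y hy v w]
    have h1 : pullb (rG (Fin 5)) (psE sg ψ) =ᶠ[𝓝 y]
        pullb (fun _ : E (Fin 5) => del (Fin 5)) (psE sg ψ) := by
      filter_upwards [hM.isOpen.mem_nhds hy] with z hz
      exact (heq z hz).symm
    rw [chris_congr h1]

theorem sec_eq {U : Set (Fin 4 → ℝ)} {ψ : (Fin 4 → ℝ) → Fin 5 → ℝ} (hψ : IsParam U ψ)
    {y : Fin 4 → ℝ} (hy : y ∈ U) (a c : Fin 4 → ℝ) :
    riemV (comp rg ψ) y a c c a = area2 (comp rg ψ) y a c ∧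
      0 ≤ area2 (comp rg ψ) y a c := by
  obtain ⟨hM, hS⟩ := rmet hψ
  have hx : (eqE 4).symm y ∈ eqE 4 ⁻¹' U := mem_pre hy
  have hyx : eqE 4 ((eqE 4).symm y) = y := ContinuousLinearEquiv.apply_symm_apply _ _
  set x := (eqE 4).symm y with hxdef
  have hn1 : ‖psE sg ψ x‖ = 1 := IsParam.norm' sg hψ x hx
  have hOm : psE sg ψ x ∈ Om (Fin 5) := IsParam.maps' sg hψ hx
  set D := fderiv ℝ (psE sg ψ) x with hD
  have ho : ∀ v, ⟪psE sg ψ x, D v⟫ = 0 := fun v =>
    H5.psi_orth (IsParam.open' hψ) (IsParam.smooth' sg hψ) (IsParam.norm' sg hψ) hx v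
  have hr : riemV (comp rg ψ) y a c c a =
      ⟪D (vec c), D (vec c)⟫ * ⟪D (vec a), D (vec a)⟫ - ⟪D (vec a), D (vec c)⟫ ^ 2 := by
    rw [comp_rg]
    conv_lhs => rw [← hyx]
    rw [riemV_mat hM hx, pullb_apply, del_apply]
    have hn := H5.nat chrStatement (Fin 5) (Fin 4) _ (rG (Fin 5)) (psE sg ψ) _ (Om (Fin 5)) hM
      (rG_cyl (ι := Fin 5)).metric (IsParam.smooth' sg hψ) (IsParam.maps' sg hψ) hS x hx
      (vec a) (vec c) (vec c)
    rw [hn, ← hD, Pool.Agent.RF.H38.round_riem (G := rG (Fin 5)) om_open (Subset.refl _) (fun _ _ => rfl) hOm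
      (ho _) (ho _) (ho _), hn1]
    simp only [one_pow, inv_one, one_smul, inner_sub_left, inner_smul_left, conj_trivial]
    rw [real_inner_comm (D (vec a)) (D (vec c))]
    ring
  have hA : ∀ u v : Fin 4 → ℝ, ∑ p, ∑ q, u p * v q * comp rg ψ y p q =
      ⟪D (vec u), D (vec v)⟫ := by
    intro u v
    have h1 := bil_vec (b := pullb (fun _ : E (Fin 5) => del (Fin 5)) (psE sg ψ)) x u v
    rw [pullb_apply, del_apply, ← hD, hyx, ← comp_rg] at h1
    exact h1.symm
  have ha : area2 (comp rg ψ) y a c =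
      ⟪D (vec a), D (vec a)⟫ * ⟪D (vec c), D (vec c)⟫ - ⟪D (vec a), D (vec c)⟫ ^ 2 := by
    unfold area2
    rw [hA, hA, hA]
  constructor
  · rw [hr, ha]; ring
  · rw [ha]
    have := real_inner_mul_inner_self_le (D (vec a)) (D (vec c))
    nlinarith [this]

theorem rg_metric : IsMetric rg where
  add x u v w _ _ _ := by
    unfold rg
    rw [← Finset.sum_add_distrib]
    exact Finset.sum_congr rfl fun i _ => by simp only [Pi.add_apply]; ring
  smul x a v w _ _ := by
    unfold rg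
    rw [Finset.mul_sum]
    exact Finset.sum_congr rfl fun i _ => by simp only [Pi.smul_apply, smul_eq_mul]; ring
  symm x v w _ _ := by
    unfold rg
    exact Finset.sum_congr rfl fun i _ => mul_comm _ _
  pos x v _ hv0 := by
    unfold rg
    obtain ⟨i, hi⟩ : ∃ i, v i ≠ 0 := by
      by_contra hcon
      push Not at hcon
      exact hv0 (funext hcon)
    exact Finset.sum_pos' (fun j _ => mul_self_nonneg _)
      ⟨i, Finset.mem_univ i, mul_self_pos.2 hi⟩
  smooth U ψ hψ i j := by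
    rw [comp_rg]
    have h1 := contDiffOn_entry (rmet hψ).1.smooth (eb i) (eb j)
    exact h1.comp (eqE 4).symm.contDiff.contDiffOn (fun q hq => mem_pre hq)

theorem rg_vol : vol rg = 8 * Real.pi ^ 2 / 3 := by
  have hd : ∀ x : Fin 5 → ℝ, ∑ i, x i ^ 2 = 1 → density rg x = 1 := by
    intro x hx
    unfold density
    have h1 : (Matrix.of fun i j : Fin 5 => rg x (tang x i) (tang x j) + x i * x j) = 1 := by
      ext i j
      rw [Matrix.of_apply, Matrix.one_apply]
      unfold rg tang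
      have h2 : ∀ k, ((if i = k then (1:ℝ) else 0) - x i * x k) *
          ((if j = k then (1:ℝ) else 0) - x j * x k) =
          (if i = k then (if j = k then (1:ℝ) else 0) else 0) -
            (if i = k then x j * x k else 0) - (if j = k then x i * x k else 0) +
            x i * x j * x k ^ 2 := by
        intro k
        split_ifs <;> ring
      rw [Finset.sum_congr rfl fun k _ => h2 k]
      rw [Finset.sum_add_distrib, Finset.sum_sub_distrib, Finset.sum_sub_distrib,
        ← Finset.mul_sum, hx]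
      simp only [Finset.sum_ite_eq, Finset.mem_univ, if_true]
      by_cases hij : i = j
      · subst hij
        simp
        try ring
      · rw [if_neg (fun h => hij h.symm), if_neg hij]
        ring
    rw [h1, Matrix.det_one, Real.sqrt_one]
  unfold vol
  have h3 : ∀ x : Metric.sphere (0 : EuclideanSpace ℝ (Fin 5)) 1,
      density rg (fun i => (x : EuclideanSpace ℝ (Fin 5)) i) = 1 := by
    intro x
    apply hd
    have h4 : ‖(x : EuclideanSpace ℝ (Fin 5))‖ = 1 := by simp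
    have h5 := EuclideanSpace.real_norm_sq_eq (x : EuclideanSpace ℝ (Fin 5))
    rw [h4] at h5
    rw [← h5]; norm_num
  simp only [h3]
  rw [integral_const, smul_eq_mul, mul_one]
  unfold Measure.real
  rw [Measure.toSphere_apply_univ, EuclideanSpace.volume_ball, finrank_euclideanSpace]
  simp only [Fintype.card_fin, ENNReal.ofReal_one, one_pow, one_mul]
  have hG : Real.Gamma ((5:ℕ) / 2 + 1) = 15 / 8 * Real.sqrt Real.pi := by
    have e0 : ((5:ℕ):ℝ) / 2 + 1 = 5 / 2 + 1 := by norm_num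
    rw [e0, Real.Gamma_add_one (by norm_num)]
    have e1 : (5:ℝ) / 2 = 3 / 2 + 1 := by norm_num
    rw [e1, Real.Gamma_add_one (by norm_num)]
    have e2 : (3:ℝ) / 2 = 1 / 2 + 1 := by norm_num
    rw [e2, Real.Gamma_add_one (by norm_num), Real.Gamma_one_half_eq]
    ring
  rw [hG, ENNReal.toReal_mul, ENNReal.toReal_natCast, ENNReal.toReal_ofReal (by positivity)]
  have hs : Real.sqrt Real.pi ≠ 0 := (Real.sqrt_pos.2 Real.pi_pos).ne'
  have hs2 : Real.sqrt Real.pi ^ 4 = Real.pi ^ 2 := by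
    have := Real.sq_sqrt Real.pi_pos.le
    calc Real.sqrt Real.pi ^ 4 = (Real.sqrt Real.pi ^ 2) ^ 2 := by ring
      _ = _ := by rw [this]
  rw [← hs2]
  field_simp
  norm_num

theorem rnd : RndStatement := by
  refine ⟨rg_metric, ?_, ?_, rg_vol⟩
  · intro U ψ hψ y hy a b
    obtain ⟨h1, h2⟩ := sec_eq hψ hy a b
    change |riemV (comp rg ψ) y a b b a| ≤ area2 (comp rg ψ) y a b
    rw [h1, abs_of_nonneg h2]
  · intro a b t x v w _ _
    change ∑ i, circ a b t v i * circ a b t w i = ∑ i, v i * w i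
    have c1 := Real.sin_sq_add_cos_sq (a * t)
    have c2 := Real.sin_sq_add_cos_sq (b * t)
    unfold circ
    change ∑ i : Fin 5, _ = ∑ i : Fin 5, _
    rw [Fin.sum_univ_five, Fin.sum_univ_five]
    simp only [Matrix.cons_val_zero, Matrix.cons_val_one, Matrix.cons_val]
    linear_combination (v 0 * w 0 + v 1 * w 1) * c1 + (v 2 * w 2 + v 3 * w 3) * c2

end Pool.Agent.MVS.H38
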