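import Pool.Agent.MVS.Stmts

noncomputable section

open scoped ContDiff Topology RealInnerProductSpace
set_option maxSynthPendingDepth 3
open Set MeasureTheory Matrix

namespace Pool.Agent.MVS.H38

open Pool.Agent.RF

section alg
variable (a b c d e f x y z : ℝ)

/-- second elementary symmetric function of a symmetric matrix -/
def e2 : ℝ := a * d + a * f + d * f - b ^ 2 - c ^ 2 - e ^ 2

variable {a b c d e f x y z}
variable (h0 : x ^ 2 + y ^ 2 + z ^ 2 - 1 = 0) (H1 : a * x + b * y + c * z = 0)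
  (H2 : b * x + d * y + e * z = 0) (H3 : c * x + e * y + f * z = 0)
include h0 H1 H2 H3

theorem alg11 : d * f - e ^ 2 = e2 a b c d e f * x ^ 2 := by
  unfold e2
  linear_combination (-(d * f - e ^ 2)) * h0 + (y * f - z * e) * H2 - (y * e - z * d) * H3
    + x * (a * H1 + b * H2 + c * H3 - (a + d + f) * H1)

theorem alg12 : c * e - b * f = e2 a b c d e f * (x * y) := by
  unfold e2
  linear_combination (-(c * e - b * f)) * h0 + (z * c - x * f) * H2 - (z * b - x * e) * H3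
    + y * (a * H1 + b * H2 + c * H3 - (a + d + f) * H1)

theorem alg13 : b * e - c * d = e2 a b c d e f * (x * z) := by
  unfold e2
  linear_combination (-(b * e - c * d)) * h0 + (x * e - y * c) * H2 - (x * d - y * b) * H3
    + z * (a * H1 + b * H2 + c * H3 - (a + d + f) * H1)

theorem alg22 : a * f - c ^ 2 = e2 a b c d e f * y ^ 2 := by
  unfold e2
  linear_combination (-(a * f - c ^ 2)) * h0 + (z * a - x * c) * H3 - (z * c - x * f) * H1
    + y * (b * H1 + d * H2 + e * H3 - (a + d + f) * H2)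

theorem alg23 : b * c - a * e = e2 a b c d e f * (y * z) := by
  unfold e2
  linear_combination (-(b * c - a * e)) * h0 + (x * b - y * a) * H3 - (x * e - y * c) * H1
    + z * (b * H1 + d * H2 + e * H3 - (a + d + f) * H2)

theorem alg33 : a * d - b ^ 2 = e2 a b c d e f * z ^ 2 := by
  unfold e2
  linear_combination (-(a * d - b ^ 2)) * h0 + (x * d - y * b) * H1 - (x * b - y * a) * H2
    + z * (c * H1 + e * H2 + f * H3 - (a + d + f) * H3)

end alg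

/-- the projection matrix onto `ξ` -/
def pm (ξ : Fin 3 → ℝ) : Matrix (Fin 3) (Fin 3) ℝ := Matrix.of fun i j => ξ i * ξ j

/-- second elementary symmetric function -/
def e2m (m : Matrix (Fin 3) (Fin 3) ℝ) : ℝ :=
  e2 (m 0 0) (m 0 1) (m 0 2) (m 1 1) (m 1 2) (m 2 2)

variable {m : Matrix (Fin 3) (Fin 3) ℝ} {ξ : Fin 3 → ℝ}

theorem msq (hs : m 1 0 = m 0 1 ∧ m 2 0 = m 0 2 ∧ m 2 1 = m 1 2)
    (h0 : ξ 0 ^ 2 + ξ 1 ^ 2 + ξ 2 ^ 2 - 1 = 0)
    (H1 : m 0 0 * ξ 0 + m 0 1 * ξ 1 + m 0 2 * ξ 2 = 0)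
    (H2 : m 0 1 * ξ 0 + m 1 1 * ξ 1 + m 1 2 * ξ 2 = 0)
    (H3 : m 0 2 * ξ 0 + m 1 2 * ξ 1 + m 2 2 * ξ 2 = 0) :
    m * m = (m 0 0 + m 1 1 + m 2 2) • m - e2m m • (1 - pm ξ) := by
  have a11 := alg11 h0 H1 H2 H3
  have a12 := alg12 h0 H1 H2 H3
  have a13 := alg13 h0 H1 H2 H3
  have a22 := alg22 h0 H1 H2 H3
  have a23 := alg23 h0 H1 H2 H3
  have a33 := alg33 h0 H1 H2 H3
  have hE : e2m m = e2 (m 0 0) (m 0 1) (m 0 2) (m 1 1) (m 1 2) (m 2 2) := rfl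
  have hE' : e2m m = m 0 0 * m 1 1 + m 0 0 * m 2 2 + m 1 1 * m 2 2 - m 0 1 ^ 2 - m 0 2 ^ 2
    - m 1 2 ^ 2 := rfl
  rw [← hE] at a11 a12 a13 a22 a23 a33
  obtain ⟨s1, s2, s3⟩ := hs
  ext i j
  fin_cases i <;> fin_cases j <;>
  simp [Matrix.mul_apply, Fin.sum_univ_three, pm, s1, s2, s3]
  · linear_combination a11 + hE'
  · linear_combination a12
  · linear_combination a13
  · linear_combination a12
  · linear_combination a22 + hE'
  · linear_combination a23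
  · linear_combination a13
  · linear_combination a23
  · linear_combination a33 + hE'


/-- data: symmetric `m` with `m ξ = 0`, `|ξ| = 1` -/
structure MD (m : Matrix (Fin 3) (Fin 3) ℝ) (ξ : Fin 3 → ℝ) : Prop where
  hs : m 1 0 = m 0 1 ∧ m 2 0 = m 0 2 ∧ m 2 1 = m 1 2
  h0 : ξ 0 ^ 2 + ξ 1 ^ 2 + ξ 2 ^ 2 - 1 = 0
  H1 : m 0 0 * ξ 0 + m 0 1 * ξ 1 + m 0 2 * ξ 2 = 0
  H2 : m 0 1 * ξ 0 + m 1 1 * ξ 1 + m 1 2 * ξ 2 = 0
  H3 : m 0 2 * ξ 0 + m 1 2 * ξ 1 + m 2 2 * ξ 2 = 0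
  pos : ∀ v : Fin 3 → ℝ, v ≠ 0 → 0 < v ⬝ᵥ (m + pm ξ) *ᵥ v

theorem pm_sq (h0 : ξ 0 ^ 2 + ξ 1 ^ 2 + ξ 2 ^ 2 - 1 = 0) : pm ξ * pm ξ = pm ξ := by
  ext i j
  simp only [Matrix.mul_apply, Fin.sum_univ_three, pm, Matrix.of_apply]
  linear_combination (ξ i * ξ j) * h0

theorem m_pm (h : MD m ξ) : m * pm ξ = 0 := by
  obtain ⟨⟨s1, s2, s3⟩, h0, H1, H2, H3, -⟩ := h
  ext i j
  simp only [Matrix.mul_apply, Fin.sum_univ_three, pm, Matrix.of_apply, Matrix.zero_apply]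
  fin_cases i <;> simp [s1, s2, s3]
  · linear_combination ξ j * H1
  · linear_combination ξ j * H2
  · linear_combination ξ j * H3

theorem pm_m (h : MD m ξ) : pm ξ * m = 0 := by
  obtain ⟨⟨s1, s2, s3⟩, h0, H1, H2, H3, -⟩ := h
  ext i j
  simp only [Matrix.mul_apply, Fin.sum_univ_three, pm, Matrix.of_apply, Matrix.zero_apply]
  fin_cases j <;> simp [s1, s2, s3]
  · linear_combination ξ i * H1
  · linear_combination ξ i * H2
  · linear_combination ξ i * H3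

theorem quad_eq (h : MD m ξ) (v : Fin 3 → ℝ) :
    v ⬝ᵥ m *ᵥ v = (v - (v ⬝ᵥ ξ) • ξ) ⬝ᵥ (m + pm ξ) *ᵥ (v - (v ⬝ᵥ ξ) • ξ) := by
  obtain ⟨⟨s1, s2, s3⟩, h0, H1, H2, H3, -⟩ := h
  simp only [dotProduct, Matrix.mulVec, Fin.sum_univ_three, pm, Matrix.add_apply,
    Matrix.of_apply, Pi.sub_apply, Pi.smul_apply, smul_eq_mul, s1, s2, s3]
  set s := v 0 * ξ 0 + v 1 * ξ 1 + v 2 * ξ 2 with hs
  linear_combination (2 * s) * (v 0 * H1 + v 1 * H2 + v 2 * H3)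
    - s ^ 2 * (ξ 0 * H1 + ξ 1 * H2 + ξ 2 * H3) 
    - s ^ 2 * (ξ 0 ^ 2 + ξ 1 ^ 2 + ξ 2 ^ 2 - 1) * h0

theorem quad_pos (h : MD m ξ) {v : Fin 3 → ℝ} {i : Fin 3} (hi : ξ i ≠ 0) (hvi : v i = 0)
    (hv : v ≠ 0) : 0 < v ⬝ᵥ m *ᵥ v := by
  rw [quad_eq h]
  refine h.pos _ fun h2 => hv ?_
  have h3 := congrFun h2 i
  simp only [Pi.sub_apply, Pi.smul_apply, smul_eq_mul, Pi.zero_apply, hvi, zero_sub,
    neg_eq_zero, mul_eq_zero] at h3
  have h4 : v ⬝ᵥ ξ = 0 := by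
    rcases h3 with h3 | h3
    · exact h3
    · exact absurd h3 hi
  rw [h4, zero_smul, sub_zero] at h2
  exact h2

theorem quad_nonneg (h : MD m ξ) (v : Fin 3 → ℝ) : 0 ≤ v ⬝ᵥ m *ᵥ v := by
  rw [quad_eq h]
  by_cases hw : v - (v ⬝ᵥ ξ) • ξ = 0
  · rw [hw]; simp
  · exact (h.pos _ hw).le

theorem quad_coord (h : MD m ξ) (v : Fin 3 → ℝ) : v ⬝ᵥ m *ᵥ v =
    m 0 0 * v 0 ^ 2 + m 1 1 * v 1 ^ 2 + m 2 2 * v 2 ^ 2 + 2 * m 0 1 * v 0 * v 1
      + 2 * m 0 2 * v 0 * v 2 + 2 * m 1 2 * v 1 * v 2 := by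
  obtain ⟨⟨s1, s2, s3⟩, -, -, -, -, -⟩ := h
  simp only [dotProduct, Matrix.mulVec, Fin.sum_univ_three, s1, s2, s3]
  ring

theorem e2_pos (h : MD m ξ) : 0 < e2m m := by
  have hh := h
  obtain ⟨⟨s1, s2, s3⟩, h0, H1, H2, H3, -⟩ := hh
  have key : ∀ {p q r : ℝ}, 0 < r → 0 < r * (p * r - q ^ 2) → 0 < p * r - q ^ 2 := by
    intro p q r hr h1
    exact (pos_iff_pos_of_mul_pos h1).1 hr
  by_cases hx : ξ 0 ≠ 0
  · have e := alg11 h0 H1 H2 H3
    have h1 : 0 < m 2 2 := by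
      have := quad_pos h (v := ![0, 0, 1]) hx rfl (fun hc => by
        have := congrFun hc 2; simp at this)
      rw [quad_coord h] at this
      simpa using this
    have h2 : 0 < m 2 2 * (m 1 1 * m 2 2 - m 1 2 ^ 2) := by
      have := quad_pos h (v := ![0, m 2 2, -m 1 2]) hx rfl (fun hc => by
        have := congrFun hc 1; simp at this; exact h1.ne' this)
      rw [quad_coord h] at this
      simp at this
      nlinarith [this]
    have h3 := key h1 h2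
    rw [e] at h3
    exact (pos_iff_pos_of_mul_pos h3).2 (by positivity)
  · by_cases hy : ξ 1 ≠ 0
    · have e := alg22 h0 H1 H2 H3
      have h1 : 0 < m 2 2 := by
        have := quad_pos h (v := ![0, 0, 1]) hy rfl (fun hc => by
          have := congrFun hc 2; simp at this)
        rw [quad_coord h] at this
        simpa using this
      have h2 : 0 < m 2 2 * (m 0 0 * m 2 2 - m 0 2 ^ 2) := by
        have := quad_pos h (v := ![m 2 2, 0, -m 0 2]) hy rfl (fun hc => by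
          have := congrFun hc 0; simp at this; exact h1.ne' this)
        rw [quad_coord h] at this
        simp at this
        nlinarith [this]
      have h3 := key h1 h2
      rw [e] at h3
      exact (pos_iff_pos_of_mul_pos h3).2 (by positivity)
    · push Not at hx hy
      have hz : ξ 2 ≠ 0 := by
        intro hz
        rw [hx, hy, hz] at h0
        norm_num at h0
      have e := alg33 h0 H1 H2 H3
      have h1 : 0 < m 1 1 := by
        have := quad_pos h (v := ![0, 1, 0]) hz rfl (fun hc => by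
          have := congrFun hc 1; simp at this)
        rw [quad_coord h] at this
        simpa using this
      have h2 : 0 < m 1 1 * (m 0 0 * m 1 1 - m 0 1 ^ 2) := by
        have := quad_pos h (v := ![m 1 1, -m 0 1, 0]) hz rfl (fun hc => by
          have := congrFun hc 0; simp at this; exact h1.ne' this)
        rw [quad_coord h] at this
        simp at this
        nlinarith [this]
      have h3 := key h1 h2
      rw [e] at h3
      exact (pos_iff_pos_of_mul_pos h3).2 (by positivity)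

/-- `√ e₂` -/
def de (m : Matrix (Fin 3) (Fin 3) ℝ) : ℝ := Real.sqrt (e2m m)

/-- `√ (tr + 2 √ e₂)` -/
def ta (m : Matrix (Fin 3) (Fin 3) ℝ) : ℝ :=
  Real.sqrt (m 0 0 + m 1 1 + m 2 2 + 2 * de m)

/-- the square root of `m + pm ξ` -/
def rt (m : Matrix (Fin 3) (Fin 3) ℝ) (ξ : Fin 3 → ℝ) : Matrix (Fin 3) (Fin 3) ℝ :=
  pm ξ + (ta m)⁻¹ • (m + de m • (1 - pm ξ))

theorem de_pos (h : MD m ξ) : 0 < de m := Real.sqrt_pos.2 (e2_pos h)

theorem tr_nonneg (h : MD m ξ) : 0 ≤ m 0 0 + m 1 1 + m 2 2 := by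
  have h1 := quad_nonneg h ![1, 0, 0]
  have h2 := quad_nonneg h ![0, 1, 0]
  have h3 := quad_nonneg h ![0, 0, 1]
  rw [quad_coord h] at h1 h2 h3
  simp at h1 h2 h3
  linarith

theorem tade_pos (h : MD m ξ) : 0 < m 0 0 + m 1 1 + m 2 2 + 2 * de m := by
  have := tr_nonneg h
  have := de_pos h
  linarith

theorem ta_pos (h : MD m ξ) : 0 < ta m := Real.sqrt_pos.2 (tade_pos h)

theorem rt_sq (h : MD m ξ) : rt m ξ * rt m ξ = m + pm ξ := by
  have hp := pm_sq h.h0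
  have hmp := m_pm h
  have hpm := pm_m h
  have hmm := msq h.hs h.h0 h.H1 h.H2 h.H3
  have hd : e2m m = de m * de m := (Real.mul_self_sqrt (e2_pos h).le).symm
  have ht : ta m * ta m = m 0 0 + m 1 1 + m 2 2 + 2 * de m := Real.mul_self_sqrt (tade_pos h).le
  set t := m 0 0 + m 1 1 + m 2 2 with htdef
  set q := m + de m • (1 - pm ξ) with hq
  have hpq : pm ξ * q = 0 := by
    rw [hq, mul_add, hpm, mul_smul_comm, mul_sub, mul_one, hp, sub_self, smul_zero, add_zero]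
  have hqp : q * pm ξ = 0 := by
    rw [hq, add_mul, hmp, smul_mul_assoc, sub_mul, one_mul, hp, sub_self, smul_zero, add_zero]
  have h1p : (1 - pm ξ) * (1 - pm ξ) = 1 - pm ξ := by
    rw [mul_sub, mul_one, sub_mul, one_mul, hp, sub_self, sub_zero]
  have hm1 : m * (1 - pm ξ) = m := by rw [mul_sub, mul_one, hmp, sub_zero]
  have h1m : (1 - pm ξ) * m = m := by rw [sub_mul, one_mul, hpm, sub_zero]
  have hqq : q * q = (ta m * ta m) • m := by
    rw [ht, hq, mul_add, add_mul, add_mul, hmm, smul_mul_assoc, mul_smul_comm, mul_smul_comm,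
      hm1, h1m, smul_mul_assoc, h1p, hd]
    module
  unfold rt
  rw [mul_add, add_mul, add_mul, hp, smul_mul_assoc, hqp, mul_smul_comm, hpq, mul_smul_comm,
    smul_mul_assoc, hqq, smul_smul, smul_smul, smul_zero, add_zero]
  have h3 : (ta m)⁻¹ * (ta m)⁻¹ * (ta m * ta m) = 1 := by
    have := (ta_pos h).ne'
    field_simp
  rw [h3, one_smul, zero_add, add_comm]

theorem rt_quad (v : Fin 3 → ℝ) : v ⬝ᵥ rt m ξ *ᵥ v =
    (v ⬝ᵥ ξ) ^ 2 + (ta m)⁻¹ * (v ⬝ᵥ m *ᵥ v + de m * (v ⬝ᵥ v - (v ⬝ᵥ ξ) ^ 2)) := by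
  unfold rt
  have h1 : ∀ w : Fin 3 → ℝ, pm ξ *ᵥ w = (ξ ⬝ᵥ w) • ξ := by
    intro w
    ext i
    simp only [pm, Matrix.mulVec, dotProduct, Matrix.of_apply, Pi.smul_apply, smul_eq_mul,
      Fin.sum_univ_three]
    ring
  rw [Matrix.add_mulVec, dotProduct_add, h1, dotProduct_smul, Matrix.smul_mulVec,
    dotProduct_smul, Matrix.add_mulVec, dotProduct_add, Matrix.smul_mulVec, dotProduct_smul,
    Matrix.sub_mulVec, Matrix.one_mulVec, dotProduct_sub, h1, dotProduct_smul,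
    dotProduct_comm ξ v]
  simp only [smul_eq_mul]
  ring

theorem rt_pos (h : MD m ξ) (v : Fin 3 → ℝ) (hv : v ≠ 0) : 0 < v ⬝ᵥ rt m ξ *ᵥ v := by
  rw [rt_quad]
  have h1 := quad_nonneg h v
  have h2 := de_pos h
  have h3 := inv_pos.2 (ta_pos h)
  have h0 := h.h0
  have h4 : (v ⬝ᵥ ξ) ^ 2 ≤ v ⬝ᵥ v := by
    simp only [dotProduct, Fin.sum_univ_three]
    nlinarith [sq_nonneg (v 0 * ξ 1 - v 1 * ξ 0), sq_nonneg (v 0 * ξ 2 - v 2 * ξ 0),
      sq_nonneg (v 1 * ξ 2 - v 2 * ξ 1), h0]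
  by_cases h5 : v ⬝ᵥ ξ = 0
  · rw [h5]
    have h6 : 0 < v ⬝ᵥ v := by
      have h60 : 0 ≤ v ⬝ᵥ v := by
        simp only [dotProduct, Fin.sum_univ_three]
        nlinarith [mul_self_nonneg (v 0), mul_self_nonneg (v 1), mul_self_nonneg (v 2)]
      rcases lt_or_eq_of_le h60 with h7 | h7
      · exact h7
      · exact absurd (dotProduct_self_eq_zero.1 h7.symm) hv
    have h8 : 0 < v ⬝ᵥ m *ᵥ v + de m * (v ⬝ᵥ v - 0 ^ 2) := by
      have := mul_pos h2 h6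
      nlinarith
    have := mul_pos h3 h8
    nlinarith
  · have h6 : 0 < (v ⬝ᵥ ξ) ^ 2 := by positivity
    have h7 : 0 ≤ v ⬝ᵥ m *ᵥ v + de m * (v ⬝ᵥ v - (v ⬝ᵥ ξ) ^ 2) := by
      have := mul_nonneg h2.le (sub_nonneg.2 h4)
      linarith
    have := mul_nonneg h3.le h7
    linarith

theorem rt_symm (h : MD m ξ) : (rt m ξ)ᵀ = rt m ξ := by
  obtain ⟨⟨s1, s2, s3⟩, h0, H1, H2, H3, -⟩ := h
  have h1 : (pm ξ)ᵀ = pm ξ := by
    ext i j
    simp only [Matrix.transpose_apply, pm, Matrix.of_apply]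
    ring
  have h2 : mᵀ = m := by
    ext i j
    rw [Matrix.transpose_apply]
    fin_cases i <;> fin_cases j <;> simp [s1, s2, s3]
  unfold rt
  rw [Matrix.transpose_add, Matrix.transpose_smul, Matrix.transpose_add, Matrix.transpose_smul,
    Matrix.transpose_sub, Matrix.transpose_one, h1, h2]

theorem rt_det (h : MD m ξ) : 0 < (rt m ξ).det := by
  apply Matrix.PosDef.det_pos
  refine Matrix.PosDef.of_dotProduct_mulVec_pos ?_ ?_
  · rw [Matrix.IsHermitian, Matrix.conjTranspose_eq_transpose_of_trivial]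
    exact rt_symm h
  · intro v hv
    simpa using rt_pos h v hv

theorem rt_xi (h : MD m ξ) : rt m ξ *ᵥ ξ = ξ := by
  obtain ⟨⟨s1, s2, s3⟩, h0, H1, H2, H3, -⟩ := h
  have hξ : ξ ⬝ᵥ ξ = 1 := by
    simp only [dotProduct, Fin.sum_univ_three]
    linear_combination h0
  have h1 : pm ξ *ᵥ ξ = ξ := by
    ext i
    simp only [pm, Matrix.mulVec, dotProduct, Matrix.of_apply, Fin.sum_univ_three]
    linear_combination (ξ i) * h0
  have h2 : m *ᵥ ξ = 0 := by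
    ext i
    fin_cases i <;> simp [Matrix.mulVec, dotProduct, Fin.sum_univ_three, s1, s2, s3]
    · linear_combination H1
    · linear_combination H2
    · linear_combination H3
  unfold rt
  rw [Matrix.add_mulVec, Matrix.smul_mulVec, Matrix.add_mulVec, Matrix.smul_mulVec,
    Matrix.sub_mulVec, Matrix.one_mulVec, h1, h2, sub_self, smul_zero, add_zero, smul_zero,
    add_zero]

/-! ### the frames -/

theorem gm_bil {ι : Type} [Fintype ι] [DecidableEq ι] (B : Bil (E ι)) (v w : E ι) :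
    (v : ι → ℝ) ⬝ᵥ gm B *ᵥ (w : ι → ℝ) = B v w := by
  have hs : ∀ u : E ι, u = ∑ i, u i • (eb i : E ι) := by
    intro u
    ext j
    simp [eb, Pi.single_apply]
  conv_rhs => rw [hs v, hs w]
  rw [map_sum (B : E ι →L[ℝ] E ι →L[ℝ] ℝ) _ Finset.univ, _root_.sum_apply]
  simp only [dotProduct, Matrix.mulVec]
  refine Finset.sum_congr rfl fun i _ => ?_
  rw [map_smul, _root_.smul_apply, map_sum, smul_eq_mul]
  congr 1
  refine Finset.sum_congr rfl fun j _ => ?_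
  rw [map_smul, smul_eq_mul, mul_comm]
  rfl

/-- the unit vector -/
def xv (x : E3) : Fin 3 → ℝ := fun i => ‖x‖⁻¹ * x i

/-- `|x|² h - ξ ξᵀ` -/
def mx (h : E3 → Bil E3) (x : E3) : Matrix (Fin 3) (Fin 3) ℝ :=
  ‖x‖ ^ 2 • gm (h x) - pm (xv x)

/-- the frame -/
def Ax (h : E3 → Bil E3) (x : E3) : E3 →L[ℝ] E3 :=
  Matrix.toEuclideanCLM (𝕜 := ℝ) (‖x‖⁻¹ • rt (mx h x) (xv x))

theorem norm_sq3 (x : E3) : ‖x‖ ^ 2 = x 0 ^ 2 + x 1 ^ 2 + x 2 ^ 2 := by
  rw [EuclideanSpace.real_norm_sq_eq, Fin.sum_univ_three]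

theorem xv_norm {x : E3} (hx : x ∈ Om (Fin 3)) :
    xv x 0 ^ 2 + xv x 1 ^ 2 + xv x 2 ^ 2 - 1 = 0 := by
  have hn : ‖x‖ ≠ 0 := norm_ne_zero_iff.2 hx
  have := norm_sq3 x
  unfold xv
  field_simp
  linarith

theorem hsum (h : E3 → Bil E3) (hh : IsCyl h) {x : E3} (hx : x ∈ Om (Fin 3)) (i : Fin 3) :
    h x (eb i) (eb 0) * x 0 + h x (eb i) (eb 1) * x 1 + h x (eb i) (eb 2) * x 2 =
      x i / ‖x‖ ^ 2 := by
  have h1 : h x (eb i) x = h x (eb i) (eb 0) * x 0 + h x (eb i) (eb 1) * x 1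
      + h x (eb i) (eb 2) * x 2 := by
    have hs : x = ∑ j, x j • (eb j : E3) := by
      ext j
      simp [eb, Pi.single_apply]
    conv_lhs => rw [hs]
    rw [map_sum, Fin.sum_univ_three, map_smul, map_smul, map_smul]
    conv_rhs => rw [hs]
    simp only [smul_eq_mul]
    rw [← hs]
    ring
  rw [← h1, hh.metric.symm x hx, hh.radial x hx]
  congr 1
  rw [eb, EuclideanSpace.inner_single_right]
  simp

theorem mx_MD {h : E3 → Bil E3} (hh : IsCyl h) {x : E3} (hx : x ∈ Om (Fin 3)) :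
    MD (mx h x) (xv x) := by
  have hn : ‖x‖ ≠ 0 := norm_ne_zero_iff.2 hx
  have h0 := xv_norm hx
  have hsy : ∀ i j, h x (eb i) (eb j) = h x (eb j) (eb i) := fun i j => hh.metric.symm x hx _ _
  have hrow : ∀ i, mx h x i 0 * xv x 0 + mx h x i 1 * xv x 1 + mx h x i 2 * xv x 2 = 0 := by
    intro i
    have h1 := hsum h hh hx i
    have h2 := norm_sq3 x
    have h3 : ∀ j, mx h x i j = ‖x‖ ^ 2 * h x (eb i) (eb j) - xv x i * xv x j := fun j => rfl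
    rw [h3, h3, h3]
    have h4 : xv x i = ‖x‖⁻¹ * x i := rfl
    have h5 : ‖x‖ ^ 2 * (h x (eb i) (eb 0) * xv x 0 + h x (eb i) (eb 1) * xv x 1
        + h x (eb i) (eb 2) * xv x 2) = xv x i := by
      unfold xv
      have : ‖x‖ ^ 2 * (h x (eb i) (eb 0) * (‖x‖⁻¹ * x 0) + h x (eb i) (eb 1) * (‖x‖⁻¹ * x 1)
        + h x (eb i) (eb 2) * (‖x‖⁻¹ * x 2)) = ‖x‖⁻¹ * (‖x‖ ^ 2 * (h x (eb i) (eb 0) * x 0
          + h x (eb i) (eb 1) * x 1 + h x (eb i) (eb 2) * x 2)) := by ring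
      rw [this, h1]
      field_simp
    linear_combination h5 - xv x i * h0
  refine ⟨⟨?_, ?_, ?_⟩, h0, hrow 0, ?_, ?_, ?_⟩
  · change ‖x‖ ^ 2 * h x (eb 1) (eb 0) - xv x 1 * xv x 0 =
      ‖x‖ ^ 2 * h x (eb 0) (eb 1) - xv x 0 * xv x 1
    rw [hsy 1 0]; ring
  · change ‖x‖ ^ 2 * h x (eb 2) (eb 0) - xv x 2 * xv x 0 =
      ‖x‖ ^ 2 * h x (eb 0) (eb 2) - xv x 0 * xv x 2
    rw [hsy 2 0]; ring
  · change ‖x‖ ^ 2 * h x (eb 2) (eb 1) - xv x 2 * xv x 1 =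
      ‖x‖ ^ 2 * h x (eb 1) (eb 2) - xv x 1 * xv x 2
    rw [hsy 2 1]; ring
  · have e : mx h x 0 1 = mx h x 1 0 := by
      change ‖x‖ ^ 2 * h x (eb 0) (eb 1) - xv x 0 * xv x 1 =
        ‖x‖ ^ 2 * h x (eb 1) (eb 0) - xv x 1 * xv x 0
      rw [hsy 1 0]; ring
    rw [e]
    exact hrow 1
  · have e : mx h x 0 2 = mx h x 2 0 := by
      change ‖x‖ ^ 2 * h x (eb 0) (eb 2) - xv x 0 * xv x 2 =
        ‖x‖ ^ 2 * h x (eb 2) (eb 0) - xv x 2 * xv x 0
      rw [hsy 2 0]; ring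
    have e' : mx h x 1 2 = mx h x 2 1 := by
      change ‖x‖ ^ 2 * h x (eb 1) (eb 2) - xv x 1 * xv x 2 =
        ‖x‖ ^ 2 * h x (eb 2) (eb 1) - xv x 2 * xv x 1
      rw [hsy 2 1]; ring
    rw [e, e']
    exact hrow 2
  · intro v hv
    have h1 : mx h x + pm (xv x) = ‖x‖ ^ 2 • gm (h x) := by
      unfold mx
      rw [sub_add_cancel]
    rw [h1, Matrix.smul_mulVec, dotProduct_smul, smul_eq_mul]
    have h2 := gm_bil (h x) (WithLp.toLp 2 v) (WithLp.toLp 2 v)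
    rw [h2]
    refine mul_pos (by positivity) (hh.metric.pos x hx _ fun h3 => hv ?_)
    exact (WithLp.toLp_eq_zero 2).1 h3

theorem Ax_ortho {h : E3 → Bil E3} (hh : IsCyl h) {x : E3} (hx : x ∈ Om (Fin 3)) (v w : E3) :
    ⟪Ax h x v, Ax h x w⟫ = h x v w := by
  have hn : ‖x‖ ≠ 0 := norm_ne_zero_iff.2 hx
  have hM := mx_MD hh hx
  unfold Ax
  rw [Matrix.inner_toEuclideanCLM, Matrix.ofLp_toEuclideanCLM]
  set R := rt (mx h x) (xv x) with hR
  have h1 : ((‖x‖⁻¹ • R) *ᵥ (v : Fin 3 → ℝ)) ⬝ᵥ (‖x‖⁻¹ • R) *ᵥ (w : Fin 3 → ℝ) =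
      (v : Fin 3 → ℝ) ⬝ᵥ ((‖x‖⁻¹ • R)ᵀ * (‖x‖⁻¹ • R)) *ᵥ (w : Fin 3 → ℝ) := by
    rw [← Matrix.mulVec_mulVec, Matrix.dotProduct_mulVec (v : Fin 3 → ℝ),
      Matrix.vecMul_transpose]
  rw [h1, Matrix.transpose_smul, rt_symm hM, smul_mul_assoc, mul_smul_comm, rt_sq hM, smul_smul,
    mx, sub_add_cancel, smul_smul, Matrix.smul_mulVec, dotProduct_smul, gm_bil, smul_eq_mul]
  field_simp

theorem Ax_radial {h : E3 → Bil E3} (hh : IsCyl h) {x : E3} (hx : x ∈ Om (Fin 3)) :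
    Ax h x x = ‖x‖⁻¹ • x := by
  have hn : ‖x‖ ≠ 0 := norm_ne_zero_iff.2 hx
  have h1 : (x : Fin 3 → ℝ) = ‖x‖ • xv x := by
    ext i
    simp only [xv, Pi.smul_apply, smul_eq_mul]
    field_simp
  apply WithLp.ofLp_injective
  unfold Ax
  rw [Matrix.ofLp_toEuclideanCLM]
  conv_lhs => rw [h1]
  rw [Matrix.mulVec_smul, Matrix.smul_mulVec, rt_xi (mx_MD hh hx), WithLp.ofLp_smul]
  conv_rhs => rw [h1]
  rw [smul_comm]

theorem Ax_det {h : E3 → Bil E3} (hh : IsCyl h) {x : E3} (hx : x ∈ Om (Fin 3)) :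
    0 < LinearMap.det ((Ax h x : E3 →L[ℝ] E3) : E3 →ₗ[ℝ] E3) := by
  have hn : 0 < ‖x‖ := norm_pos_iff.2 hx
  unfold Ax
  rw [Matrix.coe_toEuclideanCLM_eq_toEuclideanLin, Matrix.toEuclideanLin_eq_toLin_orthonormal,
    LinearMap.det_toLin, Matrix.det_smul]
  exact mul_pos (by positivity) (rt_det (mx_MD hh hx))

theorem xv_hom {x : E3} (hx : x ∈ Om (Fin 3)) {c : ℝ} (hc : 0 < c) : xv (c • x) = xv x := by
  have hn : ‖x‖ ≠ 0 := norm_ne_zero_iff.2 hx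
  ext i
  unfold xv
  rw [norm_smul, Real.norm_eq_abs, abs_of_pos hc]
  simp only [PiLp.smul_apply, smul_eq_mul]
  field_simp

theorem Ax_hom {h : E3 → Bil E3} (hh : IsCyl h) {x : E3} (hx : x ∈ Om (Fin 3)) {c : ℝ}
    (hc : 0 < c) : Ax h (c • x) = c⁻¹ • Ax h x := by
  have hn : ‖x‖ ≠ 0 := norm_ne_zero_iff.2 hx
  have h1 : mx h (c • x) = mx h x := by
    unfold mx
    rw [xv_hom hx hc]
    congr 1
    ext i j
    simp only [Matrix.smul_apply, gm, Matrix.of_apply, smul_eq_mul]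
    rw [hh.homog c hc x hx, norm_smul, Real.norm_eq_abs, abs_of_pos hc]
    simp only [_root_.smul_apply, smul_eq_mul]
    field_simp
  unfold Ax
  rw [h1, xv_hom hx hc, norm_smul, Real.norm_eq_abs, abs_of_pos hc, mul_inv, mul_smul, map_smul]

theorem Ax_smooth {h : E3 → Bil E3} (hh : IsCyl h) : ContDiffOn ℝ ∞ (Ax h) (Om (Fin 3)) := by
  have hnorm : ContDiffOn ℝ ∞ (fun x : E3 => ‖x‖) (Om (Fin 3)) := fun x hx =>
    (contDiffAt_norm ℝ hx).contDiffWithinAt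
  have hninv : ContDiffOn ℝ ∞ (fun x : E3 => ‖x‖⁻¹) (Om (Fin 3)) :=
    hnorm.inv fun x hx => norm_ne_zero_iff.2 hx
  have hxv : ∀ i, ContDiffOn ℝ ∞ (fun x : E3 => xv x i) (Om (Fin 3)) := fun i =>
    hninv.mul (EuclideanSpace.proj (𝕜 := ℝ) i : E3 →L[ℝ] ℝ).contDiff.contDiffOn
  have hpm : ∀ i j, ContDiffOn ℝ ∞ (fun x : E3 => pm (xv x) i j) (Om (Fin 3)) := fun i j =>
    (hxv i).mul (hxv j)
  have hmx : ∀ i j, ContDiffOn ℝ ∞ (fun x : E3 => mx h x i j) (Om (Fin 3)) := fun i j =>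
    ((hnorm.pow 2).mul ((hh.metric.smooth.clm_apply contDiffOn_const).clm_apply
      contDiffOn_const)).sub (hpm i j)
  have he : ContDiffOn ℝ ∞ (fun x : E3 => e2m (mx h x)) (Om (Fin 3)) := by
    unfold e2m e2
    exact ((((((hmx 0 0).mul (hmx 1 1)).add ((hmx 0 0).mul (hmx 2 2))).add
      ((hmx 1 1).mul (hmx 2 2))).sub ((hmx 0 1).pow 2)).sub ((hmx 0 2).pow 2)).sub
      ((hmx 1 2).pow 2)
  have hde : ContDiffOn ℝ ∞ (fun x : E3 => de (mx h x)) (Om (Fin 3)) :=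
    he.sqrt fun x hx => (e2_pos (mx_MD hh hx)).ne'
  have hta : ContDiffOn ℝ ∞ (fun x : E3 => ta (mx h x)) (Om (Fin 3)) :=
    ((((hmx 0 0).add (hmx 1 1)).add (hmx 2 2)).add (contDiffOn_const.mul hde)).sqrt
      fun x hx => (tade_pos (mx_MD hh hx)).ne'
  have htinv : ContDiffOn ℝ ∞ (fun x : E3 => (ta (mx h x))⁻¹) (Om (Fin 3)) :=
    hta.inv fun x hx => (ta_pos (mx_MD hh hx)).ne'
  have hrt : ∀ i j, ContDiffOn ℝ ∞ (fun x : E3 => rt (mx h x) (xv x) i j) (Om (Fin 3)) :=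
    fun i j => (hpm i j).add (htinv.mul ((hmx i j).add (hde.mul (contDiffOn_const.sub (hpm i j)))))
  have hsum : ∀ x : E3, Ax h x = ∑ i, ∑ j, (‖x‖⁻¹ * rt (mx h x) (xv x) i j) •
      (Matrix.toEuclideanCLM (𝕜 := ℝ) (Matrix.single i j (1 : ℝ)) : E3 →L[ℝ] E3) := by
    intro x
    unfold Ax
    conv_lhs => rw [Matrix.matrix_eq_sum_single (‖x‖⁻¹ • rt (mx h x) (xv x))]
    rw [map_sum]
    refine Finset.sum_congr rfl fun i _ => ?_
    rw [map_sum]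
    refine Finset.sum_congr rfl fun j _ => ?_
    rw [← map_smul]
    congr 1
    rw [Matrix.smul_single]
    simp
  have h1 : Ax h = fun x : E3 => ∑ i, ∑ j, (‖x‖⁻¹ * rt (mx h x) (xv x) i j) •
      (Matrix.toEuclideanCLM (𝕜 := ℝ) (Matrix.single i j (1 : ℝ)) : E3 →L[ℝ] E3) := funext hsum
  rw [h1]
  exact ContDiffOn.sum fun i _ => ContDiffOn.sum fun j _ =>
    (hninv.mul (hrt i j)).smul contDiffOn_const

/-- row GBF of table mvs -/
theorem gbf : GbfStatement := fun h hh => ⟨Ax h, Ax_smooth hh, fun c hc x hx => Ax_hom hh hx hc,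
  fun x hx v w => Ax_ortho hh hx v w, fun x hx => Ax_radial hh hx, fun x hx => Ax_det hh hx⟩

end Pool.Agent.MVS.H38
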